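import Pool.Agent.H90.HC.Rel

/-! # Many classes -/

set_option autoImplicit false

namespace Pool.Agent.H90.HC

open Finset

open Classical in
/-- the classes with many elements -/
theorem many {X M η : ℝ} {Q : ℕ} (hQ : 1 ≤ Q) (hη : 0 < η) (hX : 0 < X) (hM : 0 < M) (cnt : ℕ → ℕ → ℝ)
    (hsum : ∀ q ∈ Ico Q (2 * Q), ∑ a ∈ range q, cnt q a = X)
    (hsq : ∑ q ∈ Ico Q (2 * Q), ∑ a ∈ range q, cnt q a ^ 2 ≤ M) :
    (((Ico Q (2 * Q)).filter (fun q => ¬ η * X ^ 2 / (8 * M) * q ≤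
      ((range q).filter (fun a => X / 2 ≤ q * cnt q a)).card)).card : ℝ) ≤ η * Q := by
  have hQ0 : (0 : ℝ) < Q := by exact_mod_cast hQ
  set B := (Ico Q (2 * Q)).filter (fun q => ¬ η * X ^ 2 / (8 * M) * q ≤
      ((range q).filter (fun a => X / 2 ≤ q * cnt q a)).card) with hB
  have hbad : ∀ q ∈ B, M / (η * Q) ≤ ∑ a ∈ range q, cnt q a ^ 2 := by
    intro q hq
    rw [hB, mem_filter, mem_Ico] at hq
    obtain ⟨⟨hq1, hq2⟩, hq3⟩ := hq
    by_contra hcon
    apply hq3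
    rw [not_le] at hcon
    have hq0 : (0 : ℝ) < q := by exact_mod_cast (by omega : 0 < q)
    set A := (range q).filter (fun a => X / 2 ≤ q * cnt q a) with hA
    have e1 : ∑ a ∈ range q, cnt q a = ∑ a ∈ A, cnt q a + ∑ a ∈ (range q).filter (fun a => ¬ X / 2 ≤ q * cnt q a), cnt q a :=
      (sum_filter_add_sum_filter_not _ _ _).symm
    have e2 : ∑ a ∈ (range q).filter (fun a => ¬ X / 2 ≤ q * cnt q a), cnt q a ≤ X / 2 := by
      calc _ ≤ ∑ a ∈ (range q).filter (fun a => ¬ X / 2 ≤ q * cnt q a), X / 2 / q := by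
            apply sum_le_sum
            intro a ha
            rw [mem_filter, not_le] at ha
            rw [le_div_iff₀ hq0]
            linarith [ha.2]
        _ ≤ ∑ a ∈ range q, X / 2 / q := sum_le_sum_of_subset_of_nonneg (filter_subset _ _)
            (fun _ _ _ => by positivity)
        _ = X / 2 := by
            rw [sum_const, card_range, nsmul_eq_mul]
            field_simp
    have e3 : X / 2 ≤ ∑ a ∈ A, cnt q a := by
      have := hsum q (mem_Ico.2 ⟨hq1, hq2⟩)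
      linarith
    have e4 : (∑ a ∈ A, cnt q a) ^ 2 ≤ (A.card : ℝ) * ∑ a ∈ A, cnt q a ^ 2 := sq_sum_le_card_mul_sum_sq
    have e5 : ∑ a ∈ A, cnt q a ^ 2 ≤ M / (η * Q) :=
      (sum_le_sum_of_subset_of_nonneg (filter_subset _ _) (fun _ _ _ => sq_nonneg _)).trans hcon.le
    have e6 : (X / 2) ^ 2 ≤ (A.card : ℝ) * (M / (η * Q)) :=
      (pow_le_pow_left₀ (by positivity) e3 2).trans (e4.trans (mul_le_mul_of_nonneg_left e5 (Nat.cast_nonneg _)))
    have e7 : (X / 2) ^ 2 * (η * Q) ≤ (A.card : ℝ) * M := by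
      have h1 := mul_le_mul_of_nonneg_right e6 (by positivity : 0 ≤ η * Q)
      have h2 : (A.card : ℝ) * (M / (η * Q)) * (η * Q) = A.card * M := by field_simp
      linarith
    have e8 : (q : ℝ) ≤ 2 * Q := by exact_mod_cast hq2.le
    rw [div_mul_eq_mul_div, div_le_iff₀ (by positivity)]
    have e9 : η * X ^ 2 * q ≤ η * X ^ 2 * (2 * Q) := mul_le_mul_of_nonneg_left e8 (by positivity)
    nlinarith
  have h1 : (B.card : ℝ) * (M / (η * Q)) ≤ M := by
    calc (B.card : ℝ) * (M / (η * Q)) = ∑ q ∈ B, M / (η * Q) := by rw [sum_const, nsmul_eq_mul]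
      _ ≤ ∑ q ∈ B, ∑ a ∈ range q, cnt q a ^ 2 := sum_le_sum hbad
      _ ≤ ∑ q ∈ Ico Q (2 * Q), ∑ a ∈ range q, cnt q a ^ 2 :=
          sum_le_sum_of_subset_of_nonneg (filter_subset _ _) (fun _ _ _ => sum_nonneg fun _ _ => sq_nonneg _)
      _ ≤ M := hsq
  rw [mul_div_assoc', div_le_iff₀ (by positivity)] at h1
  have h2 : (B.card : ℝ) * M ≤ (η * Q) * M := by linarith
  exact le_of_mul_le_mul_right h2 hM

end Pool.Agent.H90.HC
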