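import Pool.Agent.H90.KT.Law
import Pool.Agent.Results.MP_dddec0_nt.EveryIntervalLargeModuli
import Pool.Agent.H90.SK.Win

/-! # The second moment over the classes to large moduli, for constellations in arbitrary windows -/

set_option autoImplicit false

namespace Pool.Agent.H90.HC

open Finset Polynomial Pool.Agent.H90.SK Pool.Agent.H90.KT Pool.Agent.Helper112
open Pool.Agent.Results.MP_485179_nt.AlmostPrimeProgressions (nu 𝔖 adm_of_ne)
open Pool.Agent.Results.MP_dddec0_nt.EveryIntervalLargeModuli (count relative relative_shift shf count_mod count_split)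

/-- the shifted pattern -/
def Hs (H : Finset ℕ) (u : ℕ) : Finset ℕ := H.image (· + u)

theorem nu_Hs (H : Finset ℕ) (u p : ℕ) (hp : 0 < p) : nu (Hs H u) p = nu H p := by
  classical
  unfold nu Hs
  have h1 : (H.image (· + u)).image (· % p) = (H.image (· % p)).image (fun r => (r + u) % p) := by
    ext x
    simp only [mem_image]
    constructor
    · rintro ⟨_, ⟨h, hh, rfl⟩, rfl⟩
      exact ⟨h % p, ⟨h, hh, rfl⟩, by rw [Nat.mod_add_mod]⟩
    · rintro ⟨_, ⟨h, hh, rfl⟩, rfl⟩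
      exact ⟨h + u, ⟨h, hh, rfl⟩, by rw [Nat.mod_add_mod]⟩
  rw [h1, card_image_of_injOn]
  intro a ha b hb hab
  rw [mem_coe, mem_image] at ha hb
  obtain ⟨h, _, rfl⟩ := ha
  obtain ⟨h', _, rfl⟩ := hb
  have h2 : h % p + u ≡ h' % p + u [MOD p] := hab
  exact (Nat.ModEq.add_right_cancel' u h2).eq_of_lt_of_lt (Nat.mod_lt _ hp) (Nat.mod_lt _ hp)

theorem card_Hs (H : Finset ℕ) (u : ℕ) : (Hs H u).card = H.card := by
  unfold Hs
  apply card_image_of_injective
  intro a b h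
  simpa using h

theorem nofix_Hs {H : Finset ℕ} (hH : 𝔖 H ≠ 0) (u : ℕ) : NoFix (ff (Hs H u)) := by
  classical
  intro p hp
  have h1 := adm_of_ne hH p hp
  rw [← nu_Hs H u p hp.pos, ← card_omT (Hs H u) hp] at h1
  obtain ⟨n, hn1, hn2⟩ := exists_mem_notMem_of_card_lt_card (s := omT (Hs H u) p) (t := range p)
    (by rw [card_range]; exact h1)
  refine ⟨n, fun i hi => hn2 ?_⟩
  rw [← omP_ff (Hs H u) hp.pos]
  unfold omP
  rw [mem_filter]
  exact ⟨hn1, i, hi⟩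

theorem VV_Hs (H : Finset ℕ) (u y : ℕ) : VV (omP (ff (Hs H u))) y = VV (omT H) y := by
  rw [VV_ff]
  unfold VV
  apply prod_congr rfl
  intro p hp
  have hpp := (mem_PR.1 hp).1
  rw [card_omT _ hpp, card_omT _ hpp, nu_Hs H u p hpp.pos]

/-- the sieve product -/
theorem expH (H : Finset ℕ) : ∃ (C : ℝ) (N₀ : ℕ), 0 < C ∧ 2 ≤ N₀ ∧ ∀ N : ℕ, N₀ ≤ N →
    N * VV (omT H) N ≤ C * cw H.card N := by
  obtain ⟨C, hC, h⟩ := VV_le_S H.card
  refine ⟨C * (𝔖 H + 1), 4 * H.card ^ 2 + 2, by have := S_nonneg H; positivity, by omega, ?_⟩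
  intro N hN
  have h2 := h N hN H rfl
  have hl : 0 < Real.log N ^ H.card := by
    have : 0 < Real.log N := Real.log_pos (by exact_mod_cast (by omega : 1 < N))
    positivity
  have hS := S_nonneg H
  unfold cw
  calc (N : ℝ) * VV (omT H) N ≤ N * (C * 𝔖 H / Real.log N ^ H.card) :=
        mul_le_mul_of_nonneg_left h2 (by positivity)
    _ = C * 𝔖 H * (N / Real.log N ^ H.card) := by ring
    _ ≤ C * (𝔖 H + 1) * (N / Real.log N ^ H.card) := by
        apply mul_le_mul_of_nonneg_right _ (by positivity)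
        nlinarith

theorem relH (H : Finset ℕ) (hH : 𝔖 H ≠ 0) (hk : 1 ≤ H.card) : ∃ (C : ℝ) (N₀ : ℕ), 0 < C ∧ 2 ≤ N₀ ∧
    ∀ t N : ℕ, N₀ ≤ N → ∀ S : Set ℕ, (∀ m ∈ S, ∀ h ∈ H, (m + h).Prime) → ∀ Q : ℕ, 1 ≤ Q →
        relative S t N 1 Q ≤ C * (cw H.card N ^ 2 + Q * cw H.card N) := by
  obtain ⟨C1, N₁, hC1, hN₁, h1⟩ := expH H
  obtain ⟨C2, x₀, hC2, hx₀, h2⟩ := pol_rel H.card hk
  refine ⟨C2 * (C1 ^ 2 + C1), max x₀ N₁, by positivity, hx₀.trans (le_max_left _ _), ?_⟩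
  intro t N hN S hS Q hQ
  have h3 := h1 N ((le_max_right _ _).trans hN)
  have hsum : ∑ i, (ff (Hs H t) i).natDegree = H.card := by rw [ff_sum, card_Hs]
  have h4 := h2 N ((le_max_left _ _).trans hN) _ (ff (Hs H t)) (fun i => by rw [ff_deg])
    hsum.le (nofix_Hs hH t)
    (Pool.Agent.Results.MP_0bf1d2_nt.EveryNLargeModuli.ind (shf S t)) (by
      intro n hn i
      have hnS : n + t ∈ S := by
        by_contra hcon
        apply hn
        unfold Pool.Agent.Results.MP_0bf1d2_nt.EveryNLargeModuli.ind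
        rw [if_neg]
        exact hcon
      rw [ff_eval, Int.natAbs_natCast]
      have hmem := Pool.Agent.H387R2.Uni.en_mem (Hs H t) i
      unfold Hs at hmem
      rw [mem_image] at hmem
      obtain ⟨h, hh, he⟩ := hmem
      have h5 : n + Pool.Agent.H387R2.Uni.en (Hs H t) i = n + t + h := by
        unfold Hs
        rw [← he]
        ring
      rw [h5]
      exact hS _ hnS h hh) (by
      intro n
      unfold Pool.Agent.Results.MP_0bf1d2_nt.EveryNLargeModuli.ind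
      split_ifs <;> simp) 1 1 le_rfl (by
      intro d hd hd1
      have : d = 1 := by omega
      rw [this]) Q hQ
  rw [relative_shift, Pool.Agent.Results.MP_0bf1d2_nt.EveryNLargeModuli.relative_eq]
  refine h4.trans ?_
  rw [VV_Hs]
  have hadm : Adm H.card (omT H) := adm_omT hH le_rfl
  have hX0 : 0 ≤ (N : ℝ) * VV (omT H) N := mul_nonneg (by positivity) (VV_pos hadm N).le
  have hs0 : 0 ≤ cw H.card N := by
    have : 0 ≤ C1 * cw H.card N := hX0.trans h3
    exact nonneg_of_mul_nonneg_right this hC1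
  rw [Nat.cast_one, Real.sqrt_one, div_one]
  have t1 : ((N : ℝ) * VV (omT H) N) ^ 2 ≤ (C1 ^ 2 + C1) * cw H.card N ^ 2 := by
    calc ((N : ℝ) * VV (omT H) N) ^ 2 ≤ (C1 * cw H.card N) ^ 2 := pow_le_pow_left₀ hX0 h3 2
      _ = C1 ^ 2 * cw H.card N ^ 2 := by ring
      _ ≤ _ := mul_le_mul_of_nonneg_right (by linarith) (by positivity)
  have t2 : (Q : ℝ) * ((N : ℝ) * VV (omT H) N) ≤ (C1 ^ 2 + C1) * (Q * cw H.card N) := by
    calc (Q : ℝ) * ((N : ℝ) * VV (omT H) N) ≤ Q * (C1 * cw H.card N) :=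
          mul_le_mul_of_nonneg_left h3 (by positivity)
      _ = C1 * (Q * cw H.card N) := by ring
      _ ≤ _ := mul_le_mul_of_nonneg_right (by nlinarith) (by positivity)
  calc C2 * (((N : ℝ) * VV (omT H) N) ^ 2 + Q * ((N : ℝ) * VV (omT H) N)) ≤
      C2 * ((C1 ^ 2 + C1) * cw H.card N ^ 2 + (C1 ^ 2 + C1) * (Q * cw H.card N)) :=
        mul_le_mul_of_nonneg_left (add_le_add t1 t2) hC2.le
    _ = _ := by ring

theorem count_one (S : Set ℕ) (t N a : ℕ) : count S t N 1 a = ((Mw S t N).card : ℝ) := by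
  classical
  unfold count
  rw [← Set.ncard_coe_finset]
  congr 2
  ext m
  unfold Mw
  simp only [coe_filter, mem_Ioc, Set.mem_ofPred_eq]
  constructor
  · rintro ⟨h1, h2, h3, _⟩
    exact ⟨⟨h2, h3⟩, h1⟩
  · rintro ⟨⟨h2, h3⟩, h1⟩
    exact ⟨h1, h2, h3, Nat.modEq_one⟩

/-- **The second moment.** -/
theorem second (H : Finset ℕ) (hH : 𝔖 H ≠ 0) (hk : 1 ≤ H.card) : ∃ (C : ℝ) (N₀ : ℕ), 0 < C ∧ 2 ≤ N₀ ∧
    ∀ t N : ℕ, N₀ ≤ N → ∀ S : Set ℕ, (∀ m ∈ S, ∀ h ∈ H, (m + h).Prime) → ∀ Q : ℕ, 1 ≤ Q →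
        ∑ q ∈ Ico Q (2 * Q), ∑ a ∈ range q, count S t N q a ^ 2 ≤ C * (cw H.card N ^ 2 + Q * cw H.card N) := by
  obtain ⟨C, N₁, hC, hN₁, h1⟩ := relH H hH hk
  obtain ⟨W, N₂, hW, hN₂, hWc, _⟩ := win H hH hk
  refine ⟨2 * C + 2 * W ^ 2, max N₁ N₂, by positivity, hN₁.trans (le_max_left _ _), ?_⟩
  intro t N hN S hS Q hQ
  have h2 := h1 t N ((le_max_left _ _).trans hN) S hS Q hQ
  have h3 := hWc S hS t N ((le_max_right _ _).trans hN)
  set X : ℝ := ((Mw S t N).card : ℝ) with hX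
  have hX0 : 0 ≤ X := Nat.cast_nonneg _
  have hQ0 : (0 : ℝ) < Q := by exact_mod_cast hQ
  have hN1 : (1 : ℝ) < N := by
    have := (hN₁.trans (le_max_left _ _)).trans hN
    exact_mod_cast (by omega : 1 < N)
  have hcw : 0 ≤ cw H.card N := by
    have := Real.log_pos hN1
    unfold cw
    positivity
  have h4 : ∀ q ∈ Ico Q (2 * Q), ∑ a ∈ range q, count S t N q a ^ 2 ≤
      2 * ∑ a ∈ range q, (count S t N q a - (Nat.gcd q 1 / q : ℝ) * count S t N (Nat.gcd q 1) a) ^ 2 +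
        2 * X ^ 2 / Q := by
    intro q hq
    rw [mem_Ico] at hq
    have hq0 : (0 : ℝ) < q := by exact_mod_cast (by omega : 0 < q)
    have hQq : (Q : ℝ) ≤ q := by exact_mod_cast hq.1
    have h5 : ∀ a ∈ range q, count S t N q a ^ 2 ≤
        2 * (count S t N q a - (Nat.gcd q 1 / q : ℝ) * count S t N (Nat.gcd q 1) a) ^ 2 + 2 * (X / q) ^ 2 := by
      intro a _
      rw [Nat.gcd_one_right, count_one, ← hX, Nat.cast_one]
      obtain ⟨y, hy⟩ : ∃ y, y = count S t N q a - 1 / q * X := ⟨_, rfl⟩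
      obtain ⟨z, hz⟩ : ∃ z, z = X / q := ⟨_, rfl⟩
      have e : count S t N q a = y + z := by rw [hy, hz]; ring
      rw [← hy, ← hz, e]
      nlinarith [sq_nonneg (y - z)]
    refine (sum_le_sum h5).trans ?_
    rw [sum_add_distrib, ← mul_sum, sum_const, card_range, nsmul_eq_mul]
    have e : (q : ℝ) * (2 * (X / q) ^ 2) = 2 * X ^ 2 / q := by field_simp
    rw [e]
    gcongr
  refine (sum_le_sum h4).trans ?_
  rw [sum_add_distrib, ← mul_sum, sum_const, Nat.card_Ico, nsmul_eq_mul]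
  have e1 : ((2 * Q - Q : ℕ) : ℝ) * (2 * X ^ 2 / Q) = 2 * X ^ 2 := by
    have : 2 * Q - Q = Q := by omega
    rw [this]
    field_simp
  rw [e1]
  have h5 : X ^ 2 ≤ (W * cw H.card N) ^ 2 := pow_le_pow_left₀ hX0 h3 2
  have h6 : 2 * relative S t N 1 Q ≤ 2 * (C * (cw H.card N ^ 2 + Q * cw H.card N)) := by linarith
  have h7 : 0 ≤ (Q : ℝ) * cw H.card N := by positivity
  unfold relative at h6
  rw [mul_pow] at h5
  nlinarith [mul_nonneg (sq_nonneg W) h7]

end Pool.Agent.H90.HC
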